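import Pool.Agent.K1H14.SD.Stm

/-!
Piece LNK2 of project SD: monomials are in the spin group, products of two vectors of an
orthonormal basis are in its Lie algebra.
-/

set_option autoImplicit false

namespace Pool.Agent.K1H31.SD

open Pool.Agent.K1H14.KS Pool.Agent.K1H14.SD CliffordAlgebra QuadraticMap

universe u

section

variable {T : Type u} [AddCommGroup T] [Module ℂ T] {Q : QuadraticForm ℂ T} {d : ℕ}

lemma MM_coe (b : Module.Basis (Fin d) ℂ T) {K : Finset (Fin d)} (h : Even K.card) :
    ((MM (Q := Q) b K : W Q) : CliffordAlgebra Q) =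
      mono (fun i => ι Q (b i)) (K.sort (· ≤ ·)) := by
  unfold MM
  rw [dif_pos h]

lemma reverse_mono (b : Module.Basis (Fin d) ℂ T) (l : List (Fin d)) :
    reverse (mono (fun i => ι Q (b i)) l) = mono (fun i => ι Q (b i)) l.reverse := by
  induction l with
  | nil => rw [List.reverse_nil, mono_nil, reverse.map_one]
  | cons a l ih =>
    rw [mono_cons, reverse.map_mul, reverse_ι, ih, List.reverse_cons, mono_append, mono_cons,
      mono_nil, mul_one]

end

/-- **piece LNK2** -/
theorem t_LNK2 : S_LNK2.{u} := by
  intro T _ _ Q d b _ hb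
  have hE : Anti (fun i => ι Q (b i)) := hb.anti
  constructor
  · intro K hK
    set l := K.sort (· ≤ ·) with hl
    refine ⟨b.constr ℂ (fun j => sg j l • b j), ?_, ?_⟩
    · rw [MM_coe b hK, reverse_mono]
      exact reverse_mul_mono hE _
    · have h1 : (LinearMap.mulRight ℂ (mono (fun i => ι Q (b i)) l.reverse)).comp
          ((LinearMap.mulLeft ℂ (mono (fun i => ι Q (b i)) l)).comp (ι Q)) =
          (ι Q).comp (b.constr ℂ (fun j => sg j l • b j)) := by
        refine b.ext fun j => ?_
        show mono (fun i => ι Q (b i)) l * ι Q (b j) * mono (fun i => ι Q (b i)) l.reverse =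
          ι Q (b.constr ℂ (fun j => sg j l • b j) (b j))
        have h2 := mono_mul_E hE j l
        rw [Module.Basis.constr_basis, map_smul, h2, smul_mul_assoc, mul_assoc,
          mono_mul_reverse hE, mul_one]
      intro v
      rw [MM_coe b hK, reverse_mono]
      exact LinearMap.congr_fun h1 v
  · intro K hK
    have hev : Even K.card := by rw [hK]; decide
    obtain ⟨p, q, hpq⟩ : ∃ p q, K.sort (· ≤ ·) = [p, q] := by
      apply List.length_eq_two.mp
      rw [Finset.length_sort, hK]
    have hne : p ≠ q := by
      have hnd : (K.sort (· ≤ ·)).Nodup := Finset.sort_nodup _ _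
      rw [hpq] at hnd
      simpa using hnd
    have h1 : (MM (Q := Q) b K : W Q) = pairW Q (b p) (b q) := by
      apply Subtype.ext
      rw [MM_coe b hev, hpq, mono_cons, mono_cons, mono_nil, mul_one]
      rfl
    rw [h1]
    exact ⟨_, isLiePair_wedge _ _ (hb.orth p q hne)⟩

end Pool.Agent.K1H31.SD
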